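import Pool.Agent.QS.Step
import Pool.Agent.Helper21.LinSys.Bound

/-!
# Partitioning a node into clean nodes
-/

set_option autoImplicit false

namespace Pool.Agent.QS

open Finset Pool.Agent.Helper21.LinSys Pool.Agent.Helper27.QS

section Part

variable {α : Type*}

/-- The sets `cl x` form a partition of `N`. -/
structure Part (N : Finset α) (cl : α → Finset α) : Prop where
  self : ∀ x ∈ N, x ∈ cl x
  sub : ∀ x ∈ N, cl x ⊆ N
  eq : ∀ x ∈ N, ∀ x' ∈ cl x, cl x' = cl x

theorem Part.refine {N : Finset α} {cl : α → Finset α} (h : Part N cl) (P : Finset α → Prop)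
    (hP : ∀ x ∈ N, ∃ cl' : α → Finset α, Part (cl x) cl' ∧ ∀ x' ∈ cl x, P (cl' x')) :
    ∃ cl' : α → Finset α, Part N cl' ∧ (∀ x ∈ N, P (cl' x)) ∧ ∀ x ∈ N, cl' x ⊆ cl x := by
  classical
  have h1 : ∀ c : Finset α, (∃ x ∈ N, cl x = c) →
      ∃ cl' : α → Finset α, Part c cl' ∧ ∀ x' ∈ c, P (cl' x') := by
    rintro c ⟨x, hx, rfl⟩
    exact hP x hx
  rcases N.eq_empty_or_nonempty with rfl | ⟨x₀, hx₀⟩
  · exact ⟨cl, h, by simp, by simp⟩
  choose! f hf1 hf2 using h1
  have hf : ∀ x ∈ N, Part (cl x) (f (cl x)) := fun x hx => hf1 _ ⟨x, hx, rfl⟩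
  refine ⟨fun x => f (cl x) x, ⟨?_, ?_, ?_⟩, ?_, ?_⟩
  · exact fun x hx => (hf x hx).self x (h.self x hx)
  · exact fun x hx => ((hf x hx).sub x (h.self x hx)).trans (h.sub x hx)
  · intro x hx x' hx'
    have h2 : x' ∈ cl x := (hf x hx).sub x (h.self x hx) hx'
    rw [h.eq x hx x' h2]
    exact (hf x hx).eq x (h.self x hx) x' hx'
  · exact fun x hx => hf2 _ ⟨x, hx, rfl⟩ x (h.self x hx)
  · exact fun x hx => (hf x hx).sub x (h.self x hx)

end Part

variable {ι : Type*} [Fintype ι] [DecidableEq ι] {l : ℕ}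

theorem nd_eq_of_mem {Γ : AddSubgroup (ι → ZMod l)} {T : Finset ι}
    {Q : AddSubgroup (ι → ι → ZMod l)} {x y : ι → Bool} (hx : x ∈ nd Γ T Q y) :
    nd Γ T Q x = nd Γ T Q y := by
  rw [mem_nd] at hx
  ext z
  rw [mem_nd, mem_nd, fibz_eq_of_mem hx.1]
  constructor
  · rintro ⟨h, h'⟩
    exact ⟨h, fun A hA => (h' A hA).trans (hx.2 A hA)⟩
  · rintro ⟨h, h'⟩
    exact ⟨h, fun A hA => (h' A hA).trans (hx.2 A hA).symm⟩

theorem self_mem_nd (Γ : AddSubgroup (ι → ZMod l)) (T : Finset ι)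
    (Q : AddSubgroup (ι → ι → ZMod l)) (y : ι → Bool) : y ∈ nd Γ T Q y :=
  mem_nd.2 ⟨self_mem_fibz _ _ _, fun _ _ => rfl⟩

theorem nd_subset {Γ Γ' : AddSubgroup (ι → ZMod l)} {T T' : Finset ι}
    {Q Q' : AddSubgroup (ι → ι → ZMod l)} {x y : ι → Bool} (hΓ : Γ ≤ Γ') (hT : T ⊆ T')
    (hQ : Q ≤ Q') (hx : x ∈ nd Γ T Q y) : nd Γ' T' Q' x ⊆ nd Γ T Q y := by
  rw [mem_nd] at hx
  intro z hz
  rw [mem_nd] at hz ⊢
  exact ⟨fibz_self_subset hΓ hT hx.1 hz.1,
    fun A hA => (hz.2 A (hQ hA)).trans (hx.2 A hA)⟩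

omit [DecidableEq ι] in
theorem con_mono {X X' : Finset (ι → Bool)} {Q Q' : AddSubgroup (ι → ι → ZMod l)}
    (hX : X' ⊆ X) (hQ : Q ≤ Q') : con X Q ≤ con X' Q' :=
  fun _ hA => ⟨hQ hA.1, fun x hx x' hx' => hA.2 x (hX hx) x' (hX hx')⟩

theorem exists_reg [NeZero l] (Γ : AddSubgroup (ι → ZMod l)) (T : Finset ι) (R L : ℕ)
    (h : Nat.card Γ ≤ 2 ^ L) :
    ∃ T' : Finset ι, T ⊆ T' ∧ (T' \ T).card ≤ R * L ∧ Reg Γ T' R := by
  obtain ⟨t, ht, T', hTT, hc, hp, hor⟩ := regularise Γ T R (L + 1)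
  have h0 : Nat.card (Γ ⊓ sup l T' : AddSubgroup (ι → ZMod l)) ≤ Nat.card Γ :=
    card_le_of_le inf_le_left
  have h1 : 2 ^ t ≤ 2 ^ L := by
    calc 2 ^ t ≤ 2 ^ t * Nat.card (Γ ⊓ sup l T : AddSubgroup (ι → ZMod l)) :=
          Nat.le_mul_of_pos_right _ Nat.card_pos
      _ ≤ _ := hp.trans (h0.trans h)
  have h2 : t ≤ L := (Nat.pow_le_pow_iff_right (by norm_num)).1 h1
  refine ⟨T', hTT, hc.trans (Nat.mul_le_mul_left _ h2), ?_⟩
  rcases hor with h | h
  · exact h
  · omega

/-- The data of a node, apart from the number of steps. -/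
def Nd2 (R r κ u : ℕ) (Γ : AddSubgroup (ι → ZMod l)) (T : Finset ι)
    (Q : AddSubgroup (ι → ι → ZMod l)) (y : ι → Bool) : Prop :=
  Reg Γ T R ∧ Nat.card Γ ≤ r ^ u ∧ T.card ≤ κ * u ∧ 2 ^ u ≤ Nat.card (con (fibz Γ T y y) Q)

/-- Clean nodes. -/
def Good (K R r κ : ℕ) (Q : AddSubgroup (ι → ι → ZMod l)) (N : Finset (ι → Bool)) : Prop :=
  ∃ (Γ : AddSubgroup (ι → ZMod l)) (T : Finset ι) (y : ι → Bool) (u : ℕ),
    N = nd Γ T Q y ∧ Nd2 R r κ u Γ T Q y ∧ Unstr K r Γ T Q y

theorem clean [NeZero l] (K R r κ U : ℕ) (hr : 1 ≤ r) (Q : AddSubgroup (ι → ι → ZMod l))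
    (hQ : Nat.card Q ≤ 2 ^ U) (hκ : K + R * (Nat.clog 2 r * U) ≤ κ) :
    ∀ (n : ℕ) (Γ : AddSubgroup (ι → ZMod l)) (T : Finset ι) (y : ι → Bool) (u : ℕ),
      Nat.card Q - Nat.card (con (fibz Γ T y y) Q) ≤ n → Nd2 R r κ u Γ T Q y →
      ∃ cl : (ι → Bool) → Finset (ι → Bool), Part (nd Γ T Q y) cl ∧
        ∀ x ∈ nd Γ T Q y, Good K R r κ Q (cl x) := by
  classical
  intro n
  induction n with
  | zero =>
    intro Γ T y u hn hnd
    refine ⟨fun _ => nd Γ T Q y, ⟨fun x hx => hx, fun _ _ => Finset.Subset.refl _,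
      fun _ _ _ _ => rfl⟩, fun x _ => ⟨Γ, T, y, u, rfl, hnd, ?_⟩⟩
    intro A hA _ _ _ _
    have h1 : con (fibz Γ T y y) Q = Q :=
      AddSubgroup.eq_of_le_of_card_ge (con_le _ Q) (by omega)
    rw [h1]
    exact hA
  | succ n ih =>
    intro Γ T y u hn hnd
    by_cases hun : Unstr K r Γ T Q y
    · exact ⟨fun _ => nd Γ T Q y, ⟨fun x hx => hx, fun _ _ => Finset.Subset.refl _,
        fun _ _ _ _ => rfl⟩, fun x _ => ⟨Γ, T, y, u, rfl, hnd, hun⟩⟩
    · unfold Unstr at hun
      push Not at hun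
      obtain ⟨A, hA, T', hTT', hcardT', hstr, hAcon⟩ := hun
      obtain ⟨hreg, hΓu, hTu, hu2⟩ := hnd
      have hcon2 : ∀ (Γ' : AddSubgroup (ι → ZMod l)) (T'' : Finset ι) (x : ι → Bool),
          Γ ≤ Γ' → T ⊆ T'' → x ∈ fibz Γ T y y → A ∈ con (fibz Γ' T'' x x) Q →
          2 * Nat.card (con (fibz Γ T y y) Q) ≤ Nat.card (con (fibz Γ' T'' x x) Q) := by
        intro Γ' T'' x hΓ' hT'' hx hA'
        exact two_mul_card_le (con_mono (fibz_self_subset hΓ' hT'' hx) le_rfl) hA' hAcon
      choose g hg1 hg2 hg3 using hstr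
      have hL : ∀ z, 2 ^ (u + 1) ≤ 2 ^ U → Nat.card (g z) ≤ 2 ^ (Nat.clog 2 r * U) := by
        intro z hz
        have h1 : u + 1 ≤ U := (Nat.pow_le_pow_iff_right (by norm_num)).1 hz
        calc Nat.card (g z) ≤ r * Nat.card Γ := hg2 z
          _ ≤ r * r ^ u := Nat.mul_le_mul_left _ hΓu
          _ = r ^ (u + 1) := by ring
          _ ≤ r ^ U := Nat.pow_le_pow_right hr h1
          _ ≤ 2 ^ (Nat.clog 2 r * U) := pow_le_two_pow r U
      by_cases hz : 2 ^ (u + 1) ≤ 2 ^ U
      · -- the new groups and faces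
        have hex := fun z => exists_reg (g z) T' R _ (hL z hz)
        choose t ht1 ht2 ht3 using hex
        set F : (ι → Bool) → Finset (ι → Bool) := fun x => fibz Γ T' x x with hF
        have hFne : ∀ x, (F x).Nonempty := fun x => ⟨x, self_mem_fibz _ _ _⟩
        set pick : Finset (ι → Bool) → (ι → Bool) := fun F =>
          if h : F.Nonempty then h.choose else y with hpick
        have hpickmem : ∀ x, pick (F x) ∈ F x := by
          intro x
          rw [hpick]
          simp only [dif_pos (hFne x)]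
          exact (hFne x).choose_spec
        have hpickF : ∀ x, fibz Γ T' (pick (F x)) (pick (F x)) = F x := fun x =>
          fibz_eq_of_mem (hpickmem x)
        set cl₀ : (ι → Bool) → Finset (ι → Bool) := fun x =>
          nd (g (pick (F x))) (t (pick (F x))) Q x with hcl₀
        have hTt : ∀ z, T ⊆ t z := fun z => hTT'.trans (ht1 z)
        have hpart : Part (nd Γ T Q y) cl₀ := by
          refine ⟨fun x _ => self_mem_nd _ _ _ _, ?_, ?_⟩
          · intro x hx
            exact nd_subset (hg1 _) (hTt _) le_rfl hx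
          · intro x hx x' hx'
            rw [hcl₀] at hx' ⊢
            dsimp only at hx' ⊢
            have h1 : x' ∈ F x := by
              have h2 := (mem_nd.1 hx').1
              exact fibz_self_subset (hg1 _) (ht1 _) (self_mem_fibz Γ T' x) h2
            have h2 : F x' = F x := fibz_eq_of_mem h1
            rw [h2]
            exact nd_eq_of_mem hx'
        obtain ⟨cl', hcl1, hcl2, -⟩ := hpart.refine (Good K R r κ Q) (by
          intro x hx
          have hxX := (mem_nd.1 hx).1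
          have hAx : A ∈ con (fibz (g (pick (F x))) (t (pick (F x))) x x) Q := by
            refine ⟨hA, fun v hv v' hv' => ?_⟩
            have hsub : fibz (g (pick (F x))) (t (pick (F x))) x x ⊆ F x :=
              fibz_self_subset (hg1 _) (ht1 _) (self_mem_fibz Γ T' x)
            refine hg3 (pick (F x)) v ?_ v' ?_ ?_
            · rw [hpickF x]; exact hsub hv
            · rw [hpickF x]; exact hsub hv'
            · intro L hL
              rw [mem_fibz] at hv hv'
              rw [hv.2 L hL, hv'.2 L hL]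
          have h2 := hcon2 _ _ x (hg1 (pick (F x))) (hTt (pick (F x))) hxX hAx
          have h3 : Nat.card (con (fibz (g (pick (F x))) (t (pick (F x))) x x) Q) ≤
              Nat.card Q :=
            Nat.card_le_card_of_injective (AddSubgroup.inclusion (con_le _ Q))
              (AddSubgroup.inclusion_injective _)
          have h4 : 0 < Nat.card (con (fibz Γ T y y) Q) := Nat.card_pos
          refine ih _ _ x (u + 1) (by omega) ⟨ht3 _, ?_, ?_, ?_⟩
          · calc Nat.card (g (pick (F x))) ≤ r * Nat.card Γ := hg2 _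
              _ ≤ r * r ^ u := Nat.mul_le_mul_left _ hΓu
              _ = r ^ (u + 1) := by ring
          · have h5 : (t (pick (F x))).card ≤ T.card + (T' \ T).card +
                (t (pick (F x)) \ T').card := by
              have e1 := Finset.card_sdiff_add_card_eq_card hTT'
              have e2 := Finset.card_sdiff_add_card_eq_card (ht1 (pick (F x)))
              omega
            have h6 := ht2 (pick (F x))
            have h7 : κ * (u + 1) = κ * u + κ := by ring
            omega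
          · rw [pow_succ, mul_comm]
            exact (Nat.mul_le_mul_left _ hu2).trans h2)
        exact ⟨cl', hcl1, hcl2⟩
      · -- impossible: the group of constant forms would be too large
        exfalso
        apply hz
        have hex := exists_reg (g y) T' R _ (le_refl (Nat.card (g y)) |>.trans
          (Nat.lt_two_pow_self.le))
        obtain ⟨t, ht1, -, -⟩ := hex
        have hAx : A ∈ con (fibz (g y) t y y) Q := by
          refine ⟨hA, fun v hv v' hv' => ?_⟩
          have hsub : fibz (g y) t y y ⊆ fibz Γ T' y y :=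
            fibz_self_subset (hg1 _) ht1 (self_mem_fibz Γ T' y)
          refine hg3 y v (hsub hv) v' (hsub hv') ?_
          intro L hL
          rw [mem_fibz] at hv hv'
          rw [hv.2 L hL, hv'.2 L hL]
        have h2 := hcon2 _ _ y (hg1 y) (hTT'.trans ht1) (self_mem_fibz Γ T y) hAx
        have h3 : Nat.card (con (fibz (g y) t y y) Q) ≤ Nat.card Q :=
          Nat.card_le_card_of_injective (AddSubgroup.inclusion (con_le _ Q))
            (AddSubgroup.inclusion_injective _)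
        calc 2 ^ (u + 1) = 2 * 2 ^ u := by ring
          _ ≤ 2 * Nat.card (con (fibz Γ T y y) Q) := Nat.mul_le_mul_left _ hu2
          _ ≤ 2 ^ U := h2.trans (h3.trans hQ)

end Pool.Agent.QS
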