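import Pool.Agent.Helper27.QS.Defs

/-!
# Counting solutions of systems by characters, relative to a subgroup carrying all the bias
-/

set_option autoImplicit false

namespace Pool.Agent.QS

open Finset Pool.Agent.Helper21.LinSys

section Count

variable {V : Type*} [AddCommGroup V] {α : Type*} {l : ℕ}

/-- The points of `X` at which all elements of `H` have the same values as at `x₀`. -/
noncomputable def same (X : Finset α) (φ : α → V →+ ZMod l) (H : AddSubgroup V) (x₀ : α) :
    Finset α :=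
  by classical exact X.filter fun x => ∀ A ∈ H, φ x A = φ x₀ A

theorem mem_same {X : Finset α} {φ : α → V →+ ZMod l} {H : AddSubgroup V} {x₀ x : α} :
    x ∈ same X φ H x₀ ↔ x ∈ X ∧ ∀ A ∈ H, φ x A = φ x₀ A := by
  classical
  unfold same
  rw [Finset.mem_filter]

theorem char_sub [NeZero l] (a b : ZMod l) :
    (ZMod.stdAddChar (a - b) : ℂ) = ZMod.stdAddChar a * ZMod.stdAddChar (-b) := by
  rw [sub_eq_add_neg, AddChar.map_add_eq_mul]

/-- The sum of the characters of a subgroup. -/
theorem sum_char [NeZero l] [Fintype V] (H : AddSubgroup V) [DecidablePred (· ∈ H)]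
    (ψ : V →+ ZMod l) [Decidable (∀ A ∈ H, ψ A = 0)] :
    ∑ A ∈ univ.filter (· ∈ H), (ZMod.stdAddChar (ψ A) : ℂ) =
      if ∀ A ∈ H, ψ A = 0 then (Nat.card H : ℂ) else 0 := by
  classical
  have hcard : (univ.filter (· ∈ H)).card = Nat.card H := by
    rw [Nat.card_eq_fintype_card, Fintype.card_subtype]
  split_ifs with h
  · rw [Finset.sum_congr rfl (g := fun _ => (1 : ℂ)) (by
      intro A hA
      rw [h A (Finset.mem_filter.1 hA).2, AddChar.map_zero_eq_one]), Finset.sum_const, hcard]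
    simp
  · push Not at h
    obtain ⟨B, hB, hne⟩ := h
    have h1 : (ZMod.stdAddChar (ψ B) : ℂ) ≠ 1 := by
      intro h1
      apply hne
      rw [← (ZMod.stdAddChar (N := l)).map_zero_eq_one] at h1
      exact ZMod.injective_stdAddChar h1
    have h2 : (ZMod.stdAddChar (ψ B) : ℂ) *
        ∑ A ∈ univ.filter (· ∈ H), (ZMod.stdAddChar (ψ A) : ℂ) =
        ∑ A ∈ univ.filter (· ∈ H), (ZMod.stdAddChar (ψ A) : ℂ) := by
      rw [Finset.mul_sum]
      refine Finset.sum_bij (fun A _ => B + A) ?_ ?_ ?_ ?_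
      · intro A hA
        rw [Finset.mem_filter] at hA ⊢
        exact ⟨Finset.mem_univ _, H.add_mem hB hA.2⟩
      · intro A _ A' _ h
        exact add_left_cancel h
      · intro A hA
        refine ⟨A - B, ?_, by abel⟩
        rw [Finset.mem_filter] at hA ⊢
        exact ⟨Finset.mem_univ _, H.sub_mem hA.2 hB⟩
      · intro A _
        rw [map_add, AddChar.map_add_eq_mul]
    have h3 : ((ZMod.stdAddChar (ψ B) : ℂ) - 1) *
        ∑ A ∈ univ.filter (· ∈ H), (ZMod.stdAddChar (ψ A) : ℂ) = 0 := by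
      rw [sub_mul, h2, one_mul, sub_self]
    rcases mul_eq_zero.1 h3 with h4 | h4
    · exact absurd (sub_eq_zero.1 h4) h1
    · exact h4

theorem sum_same [NeZero l] [Fintype V] (X : Finset α) (φ : α → V →+ ZMod l)
    (H : AddSubgroup V) [DecidablePred (· ∈ H)] (x₀ : α) :
    ∑ A ∈ univ.filter (· ∈ H), ∑ x ∈ X, (ZMod.stdAddChar (φ x A - φ x₀ A) : ℂ) =
      (Nat.card H : ℂ) * ((same X φ H x₀).card : ℂ) := by
  classical
  rw [Finset.sum_comm]
  have h1 : ∀ x ∈ X, ∑ A ∈ univ.filter (· ∈ H), (ZMod.stdAddChar (φ x A - φ x₀ A) : ℂ) =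
      if ∀ A ∈ H, φ x A = φ x₀ A then (Nat.card H : ℂ) else 0 := by
    intro x _
    have := sum_char H (φ x - φ x₀)
    simp only [AddMonoidHom.sub_apply, sub_eq_zero] at this
    exact this
  rw [Finset.sum_congr rfl h1, ← Finset.sum_filter, Finset.sum_const, nsmul_eq_mul, mul_comm]
  congr 2
  unfold same
  congr

/-- If all characters of `Q` outside `H` have bias at most `δ` on `X`, then the number of points
of `X` with prescribed values of `Q` is controlled by the one for `H`. -/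
theorem count_le [NeZero l] [Finite V] (X : Finset α) (φ : α → V →+ ZMod l)
    {H Q : AddSubgroup V} (hHQ : H ≤ Q) (x₀ : α) (δ : ℝ) (hδ : 0 ≤ δ)
    (hb : ∀ A ∈ Q, A ∉ H → ‖∑ x ∈ X, (ZMod.stdAddChar (φ x A) : ℂ)‖ ≤ δ * X.card) :
    |(Nat.card Q : ℝ) * (same X φ Q x₀).card - (Nat.card H : ℝ) * (same X φ H x₀).card| ≤
      Nat.card Q * (δ * X.card) := by
  classical
  have : Fintype V := Fintype.ofFinite V
  have h1 : univ.filter (fun A : V => A ∈ Q) =
      univ.filter (fun A : V => A ∈ H) ∪ univ.filter (fun A : V => A ∈ Q ∧ A ∉ H) := by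
    ext A
    simp only [Finset.mem_filter, Finset.mem_univ, true_and, Finset.mem_union]
    constructor
    · intro h
      by_cases hA : A ∈ H
      · exact Or.inl hA
      · exact Or.inr ⟨h, hA⟩
    · rintro (h | h)
      · exact hHQ h
      · exact h.1
  have h2 : Disjoint (univ.filter (fun A : V => A ∈ H))
      (univ.filter (fun A : V => A ∈ Q ∧ A ∉ H)) := by
    rw [Finset.disjoint_filter]
    intro A _ hA h
    exact h.2 hA
  have h3 := sum_same X φ Q x₀
  rw [h1, Finset.sum_union h2, sum_same X φ H x₀] at h3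
  have h4 : ((Nat.card Q : ℝ) * (same X φ Q x₀).card -
      (Nat.card H : ℝ) * (same X φ H x₀).card : ℂ) =
      ∑ A ∈ univ.filter (fun A : V => A ∈ Q ∧ A ∉ H),
        ∑ x ∈ X, (ZMod.stdAddChar (φ x A - φ x₀ A) : ℂ) := by
    push_cast
    rw [← h3]
    ring
  have h5 : ‖∑ A ∈ univ.filter (fun A : V => A ∈ Q ∧ A ∉ H),
        ∑ x ∈ X, (ZMod.stdAddChar (φ x A - φ x₀ A) : ℂ)‖ ≤ Nat.card Q * (δ * X.card) := by
    refine (norm_sum_le _ _).trans ?_
    have h6 : ∀ A ∈ univ.filter (fun A : V => A ∈ Q ∧ A ∉ H),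
        ‖∑ x ∈ X, (ZMod.stdAddChar (φ x A - φ x₀ A) : ℂ)‖ ≤ δ * X.card := by
      intro A hA
      rw [Finset.mem_filter] at hA
      rw [Finset.sum_congr rfl fun x _ => char_sub (φ x A) (φ x₀ A), ← Finset.sum_mul, norm_mul,
        norm_char, mul_one]
      exact hb A hA.2.1 hA.2.2
    refine (Finset.sum_le_sum h6).trans ?_
    rw [Finset.sum_const, nsmul_eq_mul]
    refine mul_le_mul_of_nonneg_right ?_ (mul_nonneg hδ (Nat.cast_nonneg _))
    have h7 : (univ.filter (fun A : V => A ∈ Q ∧ A ∉ H)).card ≤ Nat.card Q := by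
      rw [Nat.card_eq_fintype_card, Fintype.card_subtype]
      refine Finset.card_le_card ?_
      intro A hA
      rw [Finset.mem_filter] at hA ⊢
      exact ⟨hA.1, hA.2.1⟩
    exact_mod_cast h7
  rw [← h4] at h5
  have h8 : ((Nat.card Q : ℝ) * (same X φ Q x₀).card -
      (Nat.card H : ℝ) * (same X φ H x₀).card : ℂ) =
      (((Nat.card Q : ℝ) * (same X φ Q x₀).card -
      (Nat.card H : ℝ) * (same X φ H x₀).card : ℝ) : ℂ) := by
    push_cast; rfl
  rw [h8, Complex.norm_real, Real.norm_eq_abs] at h5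
  exact h5

end Count

section Greedy

variable {V : Type*} [AddCommGroup V] [Finite V]

/-- Greedy choice of independent biased elements of `Q'`. -/
theorem greedy (C₀ Q Q' : AddSubgroup V) (hC : C₀ ≤ Q) (hQ : Q ≤ Q') (bad : V → Prop) (G : ℕ)
    (hG : Nat.card Q' < 2 ^ G * Nat.card Q)
    (hinv : ∀ s : Finset V, s.card ≤ G → (∀ b ∈ s, b ∈ Q' ∧ bad b) →
      (C₀ ⊔ AddSubgroup.closure (s : Set V)) ⊓ Q ≤ C₀) :
    ∃ s : Finset V, s.card ≤ G ∧ (∀ b ∈ s, b ∈ Q' ∧ bad b) ∧
      ∀ A ∈ Q', A ∉ C₀ ⊔ AddSubgroup.closure (s : Set V) → ¬ bad A := by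
  classical
  by_contra hcon
  push Not at hcon
  have key : ∀ i ≤ G, ∃ s : Finset V, s.card ≤ i ∧ (∀ b ∈ s, b ∈ Q' ∧ bad b) ∧
      2 ^ i * Nat.card C₀ ≤ Nat.card (C₀ ⊔ AddSubgroup.closure (s : Set V) : AddSubgroup V) := by
    intro i
    induction i with
    | zero =>
      intro _
      exact ⟨∅, by simp, by simp, by simp⟩
    | succ i ih =>
      intro hi
      obtain ⟨s, hs1, hs2, hs3⟩ := ih (by omega)
      obtain ⟨A, hA, hAH, hbad⟩ := hcon s (by omega) hs2
      refine ⟨insert A s, (Finset.card_insert_le _ _).trans (by omega), ?_, ?_⟩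
      · intro b hb
        rcases Finset.mem_insert.1 hb with rfl | hb
        · exact ⟨hA, hbad⟩
        · exact hs2 b hb
      · have hle : C₀ ⊔ AddSubgroup.closure (s : Set V) ≤
            C₀ ⊔ AddSubgroup.closure ((insert A s : Finset V) : Set V) := by
          refine sup_le_sup_left (AddSubgroup.closure_mono ?_) _
          rw [Finset.coe_insert]
          exact Set.subset_insert _ _
        have hmem : A ∈ C₀ ⊔ AddSubgroup.closure ((insert A s : Finset V) : Set V) :=
          (le_sup_right : AddSubgroup.closure ((insert A s : Finset V) : Set V) ≤ _)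
            (AddSubgroup.subset_closure (by simp))
        have h2 := two_mul_card_le hle hmem hAH
        calc 2 ^ (i + 1) * Nat.card C₀ = 2 * (2 ^ i * Nat.card C₀) := by ring
          _ ≤ 2 * Nat.card (C₀ ⊔ AddSubgroup.closure (s : Set V) : AddSubgroup V) :=
              Nat.mul_le_mul_left _ hs3
          _ ≤ _ := h2
  obtain ⟨s, hs1, hs2, hs3⟩ := key G le_rfl
  set H := C₀ ⊔ AddSubgroup.closure (s : Set V) with hH
  have h1 := Pool.Agent.Helper27.QS.card_sup_mul_card_inf H Q
  have h2 : H ⊓ Q = C₀ := le_antisymm (hinv s hs1 hs2) (le_inf le_sup_left hC)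
  have h3 : H ⊔ Q ≤ Q' := by
    refine sup_le (sup_le (hC.trans hQ) ?_) hQ
    rw [AddSubgroup.closure_le]
    intro b hb
    exact (hs2 b hb).1
  have h4 : Nat.card (H ⊔ Q : AddSubgroup V) ≤ Nat.card Q' :=
    Nat.card_le_card_of_injective (AddSubgroup.inclusion h3)
      (AddSubgroup.inclusion_injective h3)
  rw [h2] at h1
  have hpos : 0 < Nat.card C₀ := Nat.card_pos
  have h5 : 2 ^ G * Nat.card Q * Nat.card C₀ ≤ Nat.card Q' * Nat.card C₀ := by
    calc 2 ^ G * Nat.card Q * Nat.card C₀ = (2 ^ G * Nat.card C₀) * Nat.card Q := by ring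
      _ ≤ Nat.card H * Nat.card Q := Nat.mul_le_mul_right _ hs3
      _ = Nat.card (H ⊔ Q : AddSubgroup V) * Nat.card C₀ := h1.symm
      _ ≤ _ := Nat.mul_le_mul_right _ h4
  have h6 := Nat.le_of_mul_le_mul_right h5 hpos
  omega

end Greedy

end Pool.Agent.QS
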