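import Pool.Agent.QS.Tree

/-!
# The nodes of the quadratic decision tree
-/

set_option autoImplicit false

namespace Pool.Agent.QS

open Finset Pool.Agent.Helper21.LinSys Pool.Agent.Helper27.QS

/-- The inverse theorem: a biased quadratic form is structured on a slightly smaller face. -/
def InvStmt (l C : ℕ) [NeZero l] : Prop :=
  ∀ (ι : Type) [Fintype ι] [DecidableEq ι] (A : ι → ι → ZMod l)
    (Γ : AddSubgroup (ι → ZMod l)) (T : Finset ι) (R n₀ r : ℕ) (ε : ℝ) (y : ι → Bool),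
    Sym A → 0 < ε → ε ≤ 1 → Reg Γ T R → (Nat.card Γ : ℝ) ≤ ε * 2 ^ n₀ → C * n₀ ≤ R →
    2 * (l : ℝ) ≤ ε ^ 2 * r →
    ε * (fibz Γ T y y).card ≤ ‖∑ x ∈ fibz Γ T y y, (ZMod.stdAddChar (qv A x) : ℂ)‖ →
    ∃ T' : Finset ι, T ⊆ T' ∧ (T' \ T).card ≤ C * n₀ ^ 2 ∧ Str (qv A) Γ T' r

/-- The density statement: every realised value of few structured quadratic forms has density at
least `1 / E` on the fibre. -/
def DensStmt (l G C E : ℕ) : Prop :=
  ∀ (ι : Type) [Fintype ι] [DecidableEq ι] (A : Fin G → ι → ι → ZMod l)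
    (Γ : AddSubgroup (ι → ZMod l)) (T T₁ : Finset ι) (R k n₀ r : ℕ),
    (∀ j, Sym (A j)) → Reg Γ T R → T ⊆ T₁ → (T₁ \ T).card ≤ k →
    (∀ j, Str (qv (A j)) Γ T₁ r) → r * Nat.card Γ ≤ 2 ^ n₀ → C * (k + n₀) ≤ R →
    ∀ x₀ : ι → Bool, (fibz Γ T x₀ x₀).card ≤
      E * ((fibz Γ T x₀ x₀).filter fun x => ∀ j, qv (A j) x = qv (A j) x₀).card

variable {ι : Type} [Fintype ι] [DecidableEq ι] {l : ℕ}

/-- Points violating `P` violate it for a reason that depends on `w` quadratic forms only. -/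
def CertQ (l w : ℕ) (P : (ι → Bool) → Prop) : Prop :=
  ∀ x, ¬ P x → ∃ p : Fin w → ι → ι → ZMod l, (∀ j, Sym (p j)) ∧
    ∀ x', (∀ j, qv (p j) x' = qv (p j) x) → ¬ P x'

/-- The nodes after `j` steps. -/
def QNode (l w K R r κ j : ℕ) (N : Finset (ι → Bool)) : Prop :=
  ∃ Q : AddSubgroup (ι → ι → ZMod l), (∀ A ∈ Q, Sym A) ∧ Nat.card Q ≤ l ^ (w * j) ∧
    Good K R r κ Q N

theorem qnode_univ [NeZero l] (w K R r κ : ℕ) :
    QNode l w K R r κ 0 (univ : Finset (ι → Bool)) := by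
  classical
  refine ⟨⊥, ?_, by simp, ⊥, ∅, fun _ => false, 0, ?_, ⟨?_, by simp, by simp, ?_⟩, ?_⟩
  · intro A hA
    rw [AddSubgroup.mem_bot] at hA
    rw [hA]
    exact Sym.zero
  · ext x
    simp only [Finset.mem_univ, true_iff]
    rw [mem_nd, mem_fibz]
    refine ⟨⟨by simp, ?_⟩, ?_⟩
    · intro L hL
      rw [AddSubgroup.mem_bot] at hL
      rw [hL, ev_zero, ev_zero]
    · intro A hA
      rw [AddSubgroup.mem_bot] at hA
      rw [hA, qv_zero, qv_zero]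
  · intro L hL
    rw [AddSubgroup.mem_bot] at hL
    left
    rw [hL]
    exact AddSubgroup.zero_mem _
  · rw [pow_zero]
    exact Nat.card_pos
  · intro A hA _ _ _ _
    refine ⟨hA, ?_⟩
    rw [AddSubgroup.mem_bot] at hA
    intro x _ x' _
    rw [hA, qv_zero, qv_zero]

/-- The parameters of the tree. -/
structure QPar (l w G CB CD E J K R r₁ κ U n₀ D : ℕ) : Prop where
  hl : 2 ≤ l
  hE : 1 ≤ E
  hG : l ^ w < 2 ^ G
  hU : l ^ (w * J) ≤ 2 ^ U
  hD : D = 2 * E * l ^ w * l ^ (w * J)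
  hr₁ : r₁ = 2 * l * D ^ 2
  hn₀ : r₁ * (r₁ ^ G) ^ U ≤ 2 ^ n₀
  hK : K = G * (CB * n₀ ^ 2)
  hR : R = CB * n₀ + CD * (K + n₀)
  hκ : κ = K + R * (Nat.clog 2 (r₁ ^ G) * U)

theorem dens_finset {G C E : ℕ} (h : DensStmt l G C E)
    (Γ : AddSubgroup (ι → ZMod l)) (T T₁ : Finset ι) (R k n₀ r : ℕ)
    (s : Finset (ι → ι → ZMod l)) (hs : s.card ≤ G) (hreg : Reg Γ T R) (hT : T ⊆ T₁)
    (hk : (T₁ \ T).card ≤ k) (hstr : ∀ A ∈ s, Sym A ∧ Str (qv A) Γ T₁ r)
    (hr : r * Nat.card Γ ≤ 2 ^ n₀) (hr1 : 1 ≤ r) (hR : C * (k + n₀) ≤ R) (x₀ : ι → Bool) :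
    (fibz Γ T x₀ x₀).card ≤
      E * (same (fibz Γ T x₀ x₀) qvHom (AddSubgroup.closure (s : Set (ι → ι → ZMod l)))
        x₀).card := by
  classical
  set A : Fin G → ι → ι → ZMod l := fun j =>
    if h : (j : ℕ) < s.card then (s.equivFin.symm ⟨j, h⟩ : ι → ι → ZMod l) else 0 with hA
  have h1 : ∀ j, Sym (A j) ∧ Str (qv (A j)) Γ T₁ r := by
    intro j
    rw [hA]
    dsimp only
    by_cases hj : (j : ℕ) < s.card
    · rw [dif_pos hj]
      exact hstr _ (s.equivFin.symm ⟨j, hj⟩).2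
    · rw [dif_neg hj]
      exact ⟨Sym.zero, (str_of_const fun x x' => by rw [qv_zero, qv_zero]).mono_r hr1⟩
  refine (h ι A Γ T T₁ R k n₀ r (fun j => (h1 j).1) hreg hT hk (fun j => (h1 j).2) hr hR
    x₀).trans ?_
  refine Nat.mul_le_mul_left _ (Finset.card_le_card ?_)
  intro x hx
  rw [Finset.mem_filter] at hx
  rw [mem_same]
  refine ⟨hx.1, eq_on_closure fun B hB => ?_⟩
  have h2 := hx.2 ⟨(s.equivFin ⟨B, hB⟩ : Fin s.card), (s.equivFin ⟨B, hB⟩).2.trans_le hs⟩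
  rw [hA] at h2
  dsimp only at h2
  rw [dif_pos (s.equivFin ⟨B, hB⟩).2] at h2
  simpa using h2

theorem two_pow_clog (r G U : ℕ) : (r ^ G) ^ U ≤ 2 ^ (Nat.clog 2 (r ^ G) * U) :=
  pow_le_two_pow _ _

/-- One step of the quadratic decision tree. -/
theorem hstep [NeZero l] {w G CB CD E J K R r₁ κ U n₀ D : ℕ}
    (hpar : QPar l w G CB CD E J K R r₁ κ U n₀ D) (hInv : InvStmt l CB)
    (hDens : DensStmt l G CD E) (j : ℕ) (N : Finset (ι → Bool))
    (hN : QNode l w K R (r₁ ^ G) κ j N) (hj : j < J) (P : (ι → Bool) → Prop)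
    (hP : CertQ l w P) (x₀ : ι → Bool) (hx₀ : x₀ ∈ N) (hPx₀ : ¬ P x₀) :
    ∃ W ⊆ N, (∀ x ∈ W, ¬ P x) ∧
      ((N \ W).card : ℝ) ≤ (1 - 1 / (4 * (E : ℝ) * l ^ w)) * N.card ∧
      ∃ cl : (ι → Bool) → Finset (ι → Bool), Part N cl ∧
        (∀ x ∈ N, QNode l w K R (r₁ ^ G) κ (j + 1) (cl x)) ∧ ∀ x ∈ W, cl x ⊆ W := by
  have hl := hpar.hl
  obtain ⟨Q, hQsym, hQcard, Γ, T, y, u, rfl, ⟨hreg, hΓ, hT, hu⟩, hun⟩ := hN
  obtain ⟨p, hp, hpP⟩ := hP x₀ hPx₀
  have hlpos : 1 ≤ l := by omega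
  have hE := hpar.hE
  have hlw1 : 1 ≤ l ^ w := Nat.one_le_pow _ _ hlpos
  have hlwJ1 : 1 ≤ l ^ (w * J) := Nat.one_le_pow _ _ hlpos
  have hD1 : 1 ≤ D := by
    rw [hpar.hD]
    exact Nat.mul_pos (Nat.mul_pos (Nat.mul_pos (by norm_num) hE) hlw1) hlwJ1
  have hr1 : 1 ≤ r₁ := by
    rw [hpar.hr₁]
    exact Nat.mul_pos (Nat.mul_pos (by norm_num) hlpos) (pow_pos hD1 2)
  have hDr : D ≤ r₁ := by
    rw [hpar.hr₁]
    calc D = 1 * D := (one_mul _).symm
      _ ≤ (2 * l) * D ^ 2 := Nat.mul_le_mul (by omega) (Nat.le_self_pow (by norm_num) _)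
  have huU : u ≤ U := by
    have h1 : 2 ^ u ≤ 2 ^ U := by
      calc 2 ^ u ≤ Nat.card (con (fibz Γ T y y) Q) := hu
        _ ≤ Nat.card Q := Nat.card_le_card_of_injective (AddSubgroup.inclusion (con_le _ Q))
            (AddSubgroup.inclusion_injective _)
        _ ≤ l ^ (w * j) := hQcard
        _ ≤ l ^ (w * J) := Nat.pow_le_pow_right hlpos (Nat.mul_le_mul_left _ hj.le)
        _ ≤ 2 ^ U := hpar.hU
    exact (Nat.pow_le_pow_iff_right (by norm_num)).1 h1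
  have hrG1 : 1 ≤ r₁ ^ G := Nat.one_le_pow _ _ hr1
  have hΓn : r₁ * Nat.card Γ ≤ 2 ^ n₀ := by
    calc r₁ * Nat.card Γ ≤ r₁ * (r₁ ^ G) ^ u := Nat.mul_le_mul_left _ hΓ
      _ ≤ r₁ * (r₁ ^ G) ^ U := Nat.mul_le_mul_left _ (Nat.pow_le_pow_right hrG1 huU)
      _ ≤ 2 ^ n₀ := hpar.hn₀
  have hDR : (0 : ℝ) < D := by exact_mod_cast hD1
  have hDR1 : (1 : ℝ) ≤ D := by exact_mod_cast hD1
  have hER : (1 : ℝ) ≤ E := by exact_mod_cast hE
  have hlwR : (1 : ℝ) ≤ (l : ℝ) ^ w := by exact_mod_cast hlw1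
  have hQJ : Nat.card Q ≤ l ^ (w * J) :=
    hQcard.trans (Nat.pow_le_pow_right hlpos (Nat.mul_le_mul_left _ hj.le))
  -- the step
  have hst := step (w := w) (G := G) (K₁ := CB * n₀ ^ 2) (r₁ := r₁) (δ := 1 / D) (η := 1 / E)
    Γ T Q y hQsym (by
      intro A hA hlt
      refine hInv ι A Γ T R n₀ r₁ (1 / D) y hA (by positivity) ?_ hreg ?_ ?_ ?_ hlt.le
      · rw [div_le_one hDR]; exact hDR1
      · rw [one_div, ← div_eq_inv_mul, le_div_iff₀ hDR]
        have h1 : Nat.card Γ * D ≤ 2 ^ n₀ := by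
          calc Nat.card Γ * D ≤ Nat.card Γ * r₁ := Nat.mul_le_mul_left _ hDr
            _ = r₁ * Nat.card Γ := mul_comm _ _
            _ ≤ _ := hΓn
        exact_mod_cast h1
      · rw [hpar.hR]; exact Nat.le_add_right _ _
      · rw [hpar.hr₁]
        push_cast
        have : (D : ℝ) ≠ 0 := hDR.ne'
        field_simp
        exact le_refl _)
    (by
      intro T₁ s hT₁ hcard hs hA x₁ hx₁
      have h1 := dens_finset hDens Γ T T₁ R K n₀ r₁ s hs hreg hT₁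
        (by rw [hpar.hK]; exact hcard) hA hΓn hr1 (by rw [hpar.hR]; exact Nat.le_add_left _ _) x₁
      rw [fibz_eq_of_mem hx₁] at h1
      have h2 : ((fibz Γ T y y).card : ℝ) ≤
          E * (same (fibz Γ T y y) qvHom (AddSubgroup.closure (s : Set (ι → ι → ZMod l)))
            x₁).card := by
        exact_mod_cast h1
      rw [div_mul_eq_mul_div, one_mul, div_le_iff₀ (by linarith), mul_comm _ (E : ℝ)]
      exact h2)
    hr1 (by rw [← hpar.hK]; exact hun) hpar.hG (by positivity) (by positivity)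
    (by rw [div_le_one (by linarith)]; exact hER)
    (by
      have h1 : (D : ℝ) = 2 * E * l ^ w * l ^ (w * J) := by
        rw [hpar.hD]; push_cast; rfl
      have h2 : (Nat.card Q : ℝ) ≤ (l : ℝ) ^ (w * J) := by exact_mod_cast hQJ
      rw [mul_one_div, div_le_div_iff₀ hDR (by linarith), one_mul, h1]
      have h3 : 2 * (l : ℝ) ^ w * Nat.card Q * E ≤ 2 * (l : ℝ) ^ w * (l : ℝ) ^ (w * J) * E := by
        gcongr
      calc 2 * (l : ℝ) ^ w * Nat.card Q * E ≤ 2 * (l : ℝ) ^ w * (l : ℝ) ^ (w * J) * E := h3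
        _ = _ := by ring)
    p hp x₀ hx₀
  set N := nd Γ T Q y with hNdef
  set W := N.filter fun x => ∀ j, qv (p j) x = qv (p j) x₀ with hW
  have hWN : W ⊆ N := Finset.filter_subset _ _
  refine ⟨W, hWN, ?_, ?_, ?_⟩
  · intro x hx
    rw [hW, Finset.mem_filter] at hx
    exact hpP x hx.2
  · have h1 : ((N \ W).card : ℝ) = N.card - W.card := by
      rw [Finset.card_sdiff_of_subset hWN, Nat.cast_sub (Finset.card_le_card hWN)]
    rw [h1]
    have h2 : (N.card : ℝ) ≤ (4 * (E : ℝ) * l ^ w) * W.card := by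
      refine hst.trans (le_of_eq ?_)
      have : (E : ℝ) ≠ 0 := by linarith
      field_simp
    have hC : (0 : ℝ) < 4 * (E : ℝ) * l ^ w := by positivity
    have h3 : 1 / (4 * (E : ℝ) * l ^ w) * N.card ≤ W.card := by
      rw [one_div, inv_mul_le_iff₀ hC]
      exact h2
    linarith
  · -- the children
    set Q' : AddSubgroup (ι → ι → ZMod l) := Q ⊔ AddSubgroup.closure (Set.range p) with hQ'
    have hQ'sym : ∀ A ∈ Q', Sym A := by
      intro A hA
      rw [hQ', AddSubgroup.mem_sup] at hA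
      obtain ⟨B, hB', C, hC, rfl⟩ := hA
      refine (hQsym B hB').add ?_
      refine sym_closure (univ.image p) ?_ C (by simpa using hC)
      intro b hb
      obtain ⟨j, -, rfl⟩ := Finset.mem_image.1 hb
      exact hp j
    have hQ'card : Nat.card Q' ≤ l ^ (w * (j + 1)) := by
      calc Nat.card Q' ≤ Nat.card Q * l ^ w := card_closure_range_le Q p
        _ ≤ l ^ (w * j) * l ^ w := Nat.mul_le_mul_right _ hQcard
        _ = l ^ (w * (j + 1)) := by rw [← pow_add]; congr 1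
    have hQ'U : Nat.card Q' ≤ 2 ^ U :=
      (hQ'card.trans (Nat.pow_le_pow_right hlpos (Nat.mul_le_mul_left _ hj))).trans hpar.hU
    have hpart : Part N fun x => nd Γ T Q' x := by
      refine ⟨fun x _ => self_mem_nd _ _ _ _, fun x hx => nd_subset le_rfl
        (Finset.Subset.refl _) le_sup_left hx, fun x _ x' hx' => nd_eq_of_mem hx'⟩
    obtain ⟨cl, hcl1, hcl2, hcl3⟩ := hpart.refine (Good K R (r₁ ^ G) κ Q') (by
      intro x hx
      refine clean K R (r₁ ^ G) κ U hrG1 Q' hQ'U (by rw [hpar.hκ]) _ Γ T x u le_rfl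
        ⟨hreg, hΓ, hT, hu.trans ?_⟩
      have hX : fibz Γ T x x = fibz Γ T y y := fibz_eq_of_mem (mem_nd.1 hx).1
      rw [hX]
      exact Nat.card_le_card_of_injective
        (AddSubgroup.inclusion (con_mono (Finset.Subset.refl _) le_sup_left))
        (AddSubgroup.inclusion_injective _))
    refine ⟨cl, hcl1, fun x hx => ⟨Q', hQ'sym, hQ'card, hcl2 x hx⟩, ?_⟩
    intro x hx
    have hxN := hWN hx
    refine (hcl3 x hxN).trans ?_
    intro z hz
    rw [hW, Finset.mem_filter] at hx ⊢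
    refine ⟨hpart.sub x hxN hz, fun i => ?_⟩
    have h1 := (mem_nd.1 hz).2 (p i) ((le_sup_right : AddSubgroup.closure (Set.range p) ≤ Q')
      (AddSubgroup.subset_closure ⟨i, rfl⟩))
    rw [h1, hx.2 i]

end Pool.Agent.QS
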