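import Pool.Agent.QS.Count

/-!
# One step of the decision tree: a condition on few quadratic forms has positive density in a
clean node
-/

set_option autoImplicit false

namespace Pool.Agent.QS

open Finset Pool.Agent.Helper21.LinSys Pool.Agent.Helper27.QS

variable {ι : Type*} [Fintype ι] {l : ℕ}

/-- Evaluation of quadratic forms at `x`. -/
def qvHom (x : ι → Bool) : (ι → ι → ZMod l) →+ ZMod l where
  toFun A := qv A x
  map_zero' := qv_zero x
  map_add' A B := qv_add A B x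

@[simp] theorem qvHom_apply (x : ι → Bool) (A : ι → ι → ZMod l) : qvHom x A = qv A x := rfl

/-- The forms of `Q` that are constant on `X`. -/
def con (X : Finset (ι → Bool)) (Q : AddSubgroup (ι → ι → ZMod l)) :
    AddSubgroup (ι → ι → ZMod l) where
  carrier := {A | A ∈ Q ∧ ∀ x ∈ X, ∀ x' ∈ X, qv A x = qv A x'}
  add_mem' := by
    rintro A B ⟨hA, hA'⟩ ⟨hB, hB'⟩
    refine ⟨Q.add_mem hA hB, fun x hx x' hx' => ?_⟩
    rw [qv_add, qv_add, hA' x hx x' hx', hB' x hx x' hx']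
  zero_mem' := ⟨Q.zero_mem, fun x _ x' _ => by rw [qv_zero, qv_zero]⟩
  neg_mem' := by
    rintro A ⟨hA, hA'⟩
    refine ⟨Q.neg_mem hA, fun x hx x' hx' => ?_⟩
    rw [qv_neg, qv_neg, hA' x hx x' hx']

theorem mem_con {X : Finset (ι → Bool)} {Q : AddSubgroup (ι → ι → ZMod l)}
    {A : ι → ι → ZMod l} :
    A ∈ con X Q ↔ A ∈ Q ∧ ∀ x ∈ X, ∀ x' ∈ X, qv A x = qv A x' := Iff.rfl

theorem con_le (X : Finset (ι → Bool)) (Q : AddSubgroup (ι → ι → ZMod l)) : con X Q ≤ Q :=
  fun _ h => h.1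

variable [DecidableEq ι]

/-- The node of the decision tree at the point `y`. -/
noncomputable def nd (Γ : AddSubgroup (ι → ZMod l)) (T : Finset ι)
    (Q : AddSubgroup (ι → ι → ZMod l)) (y : ι → Bool) : Finset (ι → Bool) :=
  same (fibz Γ T y y) qvHom Q y

theorem mem_nd {Γ : AddSubgroup (ι → ZMod l)} {T : Finset ι}
    {Q : AddSubgroup (ι → ι → ZMod l)} {y x : ι → Bool} :
    x ∈ nd Γ T Q y ↔ x ∈ fibz Γ T y y ∧ ∀ A ∈ Q, qv A x = qv A y := mem_same

/-- No form of `Q` that is not constant on the fibre is structured. -/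
def Unstr (K r : ℕ) (Γ : AddSubgroup (ι → ZMod l)) (T : Finset ι)
    (Q : AddSubgroup (ι → ι → ZMod l)) (y : ι → Bool) : Prop :=
  ∀ A ∈ Q, ∀ T' : Finset ι, T ⊆ T' → (T' \ T).card ≤ K → Str (qv A) Γ T' r →
    A ∈ con (fibz Γ T y y) Q

omit [DecidableEq ι] in
theorem exists_coeff_finset (s : Finset (ι → ι → ZMod l)) (A : ι → ι → ZMod l)
    (hA : A ∈ AddSubgroup.closure (s : Set (ι → ι → ZMod l))) :
    ∃ c : (ι → ι → ZMod l) → ZMod l, A = ∑ b ∈ s, c b • b := by
  classical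
  induction hA using AddSubgroup.closure_induction with
  | mem x hx =>
    refine ⟨fun b => if b = x then 1 else 0, ?_⟩
    rw [Finset.sum_eq_single_of_mem x hx]
    · simp
    · intro b _ hb
      simp only [if_neg hb, zero_smul]
  | zero => exact ⟨0, by simp⟩
  | add x y _ _ hx hy =>
    obtain ⟨c, rfl⟩ := hx
    obtain ⟨d, rfl⟩ := hy
    exact ⟨c + d, by simp [add_smul, Finset.sum_add_distrib]⟩
  | neg x _ hx =>
    obtain ⟨c, rfl⟩ := hx
    exact ⟨-c, by simp⟩

theorem str_closure [NeZero l] {Γ : AddSubgroup (ι → ZMod l)} {T : Finset ι} {r : ℕ}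
    (s : Finset (ι → ι → ZMod l)) (hs : ∀ b ∈ s, Str (qv b) Γ T r) (A : ι → ι → ZMod l)
    (hA : A ∈ AddSubgroup.closure (s : Set (ι → ι → ZMod l))) :
    Str (qv A) Γ T (r ^ s.card) := by
  classical
  obtain ⟨c, rfl⟩ := exists_coeff_finset s A hA
  clear hA
  induction s using Finset.induction_on with
  | empty =>
    rw [Finset.sum_empty, Finset.card_empty, pow_zero]
    exact str_of_const fun x x' => by rw [qv_zero, qv_zero]
  | insert b s hb ih =>
    rw [Finset.sum_insert hb, Finset.card_insert_of_notMem hb, pow_succ, mul_comm]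
    exact ((hs b (Finset.mem_insert_self _ _)).smul (c b)).qadd
      (ih fun b' hb' => hs b' (Finset.mem_insert_of_mem hb'))

theorem sym_closure (s : Finset (ι → ι → ZMod l)) (hs : ∀ b ∈ s, Sym b) (A : ι → ι → ZMod l)
    (hA : A ∈ AddSubgroup.closure (s : Set (ι → ι → ZMod l))) : Sym A := by
  obtain ⟨c, rfl⟩ := exists_coeff_finset s A hA
  exact Sym.sum s fun b hb => (hs b hb).smul (c b)

omit [DecidableEq ι] in
theorem card_closure_range_le [NeZero l] {w : ℕ} (Q : AddSubgroup (ι → ι → ZMod l))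
    (p : Fin w → ι → ι → ZMod l) :
    Nat.card (Q ⊔ AddSubgroup.closure (Set.range p) : AddSubgroup (ι → ι → ZMod l)) ≤
      Nat.card Q * l ^ w := by
  classical
  have h0 : ∀ A ∈ Q ⊔ AddSubgroup.closure (Set.range p),
      ∃ c : Fin w → ZMod l, A - ∑ j, c j • p j ∈ Q := by
    intro A hA
    rw [AddSubgroup.mem_sup] at hA
    obtain ⟨g, hg, h, hh, rfl⟩ := hA
    have : ∃ c : Fin w → ZMod l, h = ∑ j, c j • p j := by
      induction hh using AddSubgroup.closure_induction with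
      | mem x hx =>
        obtain ⟨j, rfl⟩ := hx
        refine ⟨fun i => if i = j then 1 else 0, ?_⟩
        simp
      | zero => exact ⟨0, by simp⟩
      | add x y _ _ hx hy =>
        obtain ⟨c, rfl⟩ := hx
        obtain ⟨d, rfl⟩ := hy
        exact ⟨c + d, by simp [add_smul, Finset.sum_add_distrib]⟩
      | neg x _ hx =>
        obtain ⟨c, rfl⟩ := hx
        exact ⟨-c, by simp⟩
    obtain ⟨c, rfl⟩ := this
    exact ⟨c, by simpa using hg⟩
  have h1 : Nat.card (Q × (Fin w → ZMod l)) = Nat.card Q * l ^ w := by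
    rw [Nat.card_prod]
    congr 1
    rw [Nat.card_eq_fintype_card, Fintype.card_fun, ZMod.card, Fintype.card_fin]
  rw [← h1]
  choose c hc using fun L : (Q ⊔ AddSubgroup.closure (Set.range p) :
    AddSubgroup (ι → ι → ZMod l)) => h0 L L.2
  refine Nat.card_le_card_of_injective
    (fun L : (Q ⊔ AddSubgroup.closure (Set.range p) : AddSubgroup (ι → ι → ZMod l)) =>
      ((⟨(L : ι → ι → ZMod l) - ∑ j, c L j • p j, hc L⟩ : Q), c L)) ?_
  intro L L' h
  simp only [Prod.mk.injEq, Subtype.mk.injEq] at h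
  apply Subtype.ext
  have h2 := h.1
  rw [h.2] at h2
  exact sub_left_injective h2

omit [DecidableEq ι] in
/-- Forms with equal values at two points are closed under addition. -/
theorem eq_on_closure {S : Set (ι → ι → ZMod l)} {x x' : ι → Bool}
    (h : ∀ A ∈ S, qv A x = qv A x') : ∀ A ∈ AddSubgroup.closure S, qv A x = qv A x' := by
  have hle : AddSubgroup.closure S ≤ (qvHom x - qvHom x' : (ι → ι → ZMod l) →+ ZMod l).ker := by
    rw [AddSubgroup.closure_le]
    intro A hA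
    change (qvHom x - qvHom x' : (ι → ι → ZMod l) →+ ZMod l) A = 0
    rw [AddMonoidHom.sub_apply, qvHom_apply, qvHom_apply, h A hA, sub_self]
  intro A hA
  have := hle hA
  rw [AddMonoidHom.mem_ker, AddMonoidHom.sub_apply, qvHom_apply, qvHom_apply] at this
  exact sub_eq_zero.1 this

omit [DecidableEq ι] in
theorem eq_on_sup {Q Q' : AddSubgroup (ι → ι → ZMod l)} {x x' : ι → Bool}
    (h : ∀ A ∈ Q, qv A x = qv A x') (h' : ∀ A ∈ Q', qv A x = qv A x') :
    ∀ A ∈ Q ⊔ Q', qv A x = qv A x' := by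
  intro A hA
  rw [AddSubgroup.mem_sup] at hA
  obtain ⟨B, hB, C, hC, rfl⟩ := hA
  rw [qv_add, qv_add, h B hB, h' C hC]

/-- The final arithmetic of the step. -/
theorem step_arith {q q' c h L : ℝ} {N N' NH X η δ : ℝ} (hq : 0 < q) (hc : 1 ≤ c) (hL : 1 ≤ L)
    (hq' : q' ≤ q * L) (hq'0 : 0 < q') (hch : c ≤ h) (hη : 0 < η) (hη1 : η ≤ 1) (hX : 0 ≤ X)
    (hδ : 2 * L * q * δ ≤ η) (hNH : η * X ≤ NH) (h1 : |q' * N' - h * NH| ≤ q' * (δ * X))
    (h2 : |q * N - c * X| ≤ q * (δ * X)) : N ≤ 4 * L / η * N' := by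
  have a1 := (abs_le.1 h1).1
  have a2 := (abs_le.1 h2).2
  have e1 : c * (η * X) ≤ h * NH := by
    have : (0 : ℝ) ≤ η * X := by positivity
    have hh : 0 ≤ h := by linarith
    calc c * (η * X) ≤ h * (η * X) := mul_le_mul_of_nonneg_right hch this
      _ ≤ h * NH := mul_le_mul_of_nonneg_left hNH hh
  have e3 : c * η * X ≤ q' * (N' + δ * X) := by nlinarith
  have hpos : 0 < c * η * X ∨ X = 0 := by
    rcases hX.lt_or_eq with h | h
    · left; positivity
    · right; exact h.symm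
  -- q * L * N' ≥ (c η - η / 2) X
  have e4 : c * η * X ≤ q * L * (N' + δ * X) := by
    have h0 : 0 ≤ N' + δ * X := by
      have : 0 ≤ c * η * X := by positivity
      have h9 : 0 ≤ q' * (N' + δ * X) := this.trans e3
      by_contra hneg
      push Not at hneg
      have := mul_neg_of_pos_of_neg hq'0 hneg
      linarith
    exact e3.trans (mul_le_mul_of_nonneg_right hq' h0)
  have e5 : q * L * (δ * X) ≤ η / 2 * X := by
    have : q * L * δ ≤ η / 2 := by linarith
    calc q * L * (δ * X) = (q * L * δ) * X := by ring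
      _ ≤ _ := mul_le_mul_of_nonneg_right this hX
  have e6 : c * η * X / 2 ≤ q * L * N' := by
    have : η / 2 * X ≤ c * η * X / 2 := by
      have : 1 * (η * X) ≤ c * (η * X) :=
        mul_le_mul_of_nonneg_right hc (by positivity)
      linarith
    nlinarith
  have e7 : q * N ≤ 2 * c * X := by
    have h3 : q * (δ * X) ≤ c * X := by
      have h4 : q * δ ≤ 1 := by
        by_contra hlt
        push Not at hlt
        have : 2 * L * q * δ = 2 * L * (q * δ) := by ring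
        rw [this] at hδ
        have : 2 * L * 1 ≤ 2 * L * (q * δ) := mul_le_mul_of_nonneg_left hlt.le (by linarith)
        linarith
      calc q * (δ * X) = (q * δ) * X := by ring
        _ ≤ 1 * X := mul_le_mul_of_nonneg_right h4 hX
        _ ≤ c * X := mul_le_mul_of_nonneg_right hc hX
    linarith
  have e8 : q * N * η ≤ 4 * (q * L * N') := by
    have : q * N * η ≤ 2 * c * X * η := mul_le_mul_of_nonneg_right e7 hη.le
    nlinarith
  have e9 : q * (N * η) ≤ q * (4 * L * N') := by nlinarith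
  have e10 := le_of_mul_le_mul_left e9 hq
  rw [div_mul_eq_mul_div, le_div_iff₀ hη]
  linarith

/-- In a clean node, every realised value of few quadratic forms has positive density. -/
theorem step [NeZero l] {w G K₁ r₁ : ℕ} {δ η : ℝ} (Γ : AddSubgroup (ι → ZMod l))
    (T : Finset ι) (Q : AddSubgroup (ι → ι → ZMod l)) (y : ι → Bool)
    (hQ : ∀ A ∈ Q, Sym A)
    (hB : ∀ A : ι → ι → ZMod l, Sym A →
      δ * (fibz Γ T y y).card < ‖∑ x ∈ fibz Γ T y y, (ZMod.stdAddChar (qv A x) : ℂ)‖ →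
      ∃ T' : Finset ι, T ⊆ T' ∧ (T' \ T).card ≤ K₁ ∧ Str (qv A) Γ T' r₁)
    (hD : ∀ (T₁ : Finset ι) (s : Finset (ι → ι → ZMod l)), T ⊆ T₁ → (T₁ \ T).card ≤ G * K₁ →
      s.card ≤ G → (∀ A ∈ s, Sym A ∧ Str (qv A) Γ T₁ r₁) → ∀ x₀ ∈ fibz Γ T y y,
      η * (fibz Γ T y y).card ≤
        (same (fibz Γ T y y) qvHom (AddSubgroup.closure (s : Set (ι → ι → ZMod l))) x₀).card)
    (hr : 1 ≤ r₁) (hgood : Unstr (G * K₁) (r₁ ^ G) Γ T Q y) (hG : l ^ w < 2 ^ G)
    (hδ0 : 0 ≤ δ) (hη0 : 0 < η) (hη1 : η ≤ 1) (hδ : 2 * (l ^ w : ℝ) * Nat.card Q * δ ≤ η)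
    (p : Fin w → ι → ι → ZMod l) (hp : ∀ j, Sym (p j)) (x₀ : ι → Bool)
    (hx₀ : x₀ ∈ nd Γ T Q y) :
    ((nd Γ T Q y).card : ℝ) ≤ 4 * (l ^ w : ℝ) / η *
      ((nd Γ T Q y).filter fun x => ∀ j, qv (p j) x = qv (p j) x₀).card := by
  classical
  set X := fibz Γ T y y with hX
  set C₀ := con X Q with hC₀
  set Q' : AddSubgroup (ι → ι → ZMod l) := Q ⊔ AddSubgroup.closure (Set.range p) with hQ'
  have hcardQ' : Nat.card Q' ≤ Nat.card Q * l ^ w := card_closure_range_le Q p
  have hsymQ' : ∀ A ∈ Q', Sym A := by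
    intro A hA
    rw [hQ', AddSubgroup.mem_sup] at hA
    obtain ⟨B, hB', C, hC, rfl⟩ := hA
    refine (hQ B hB').add ?_
    refine sym_closure (univ.image p) ?_ C (by simpa using hC)
    intro b hb
    obtain ⟨j, -, rfl⟩ := Finset.mem_image.1 hb
    exact hp j
  have hr1 : 1 ≤ r₁ ^ G := Nat.one_le_pow _ _ hr
  have hl1 : (1 : ℝ) ≤ (l : ℝ) ^ w := by
    have : (1 : ℝ) ≤ l := by exact_mod_cast Nat.pos_of_ne_zero (NeZero.ne l)
    exact one_le_pow₀ this
  set bad : (ι → ι → ZMod l) → Prop := fun A =>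
    δ * X.card < ‖∑ x ∈ X, (ZMod.stdAddChar (qv A x) : ℂ)‖ with hbad
  -- a common set of variables for finitely many biased forms
  have hcommon : ∀ s : Finset (ι → ι → ZMod l), s.card ≤ G → (∀ b ∈ s, b ∈ Q' ∧ bad b) →
      ∃ T₁ : Finset ι, T ⊆ T₁ ∧ (T₁ \ T).card ≤ G * K₁ ∧ ∀ b ∈ s, Str (qv b) Γ T₁ r₁ := by
    intro s hs hbs
    have h1 : ∀ b ∈ s, ∃ T' : Finset ι, T ⊆ T' ∧ (T' \ T).card ≤ K₁ ∧ Str (qv b) Γ T' r₁ :=
      fun b hb => hB b (hsymQ' b (hbs b hb).1) (hbs b hb).2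
    choose! U hU1 hU2 hU3 using h1
    refine ⟨T ∪ s.biUnion U, Finset.subset_union_left, ?_, ?_⟩
    · have h2 : (T ∪ s.biUnion U) \ T ⊆ s.biUnion fun b => U b \ T := by
        intro i hi
        rw [Finset.mem_sdiff, Finset.mem_union] at hi
        rcases hi with ⟨h | h, h'⟩
        · exact absurd h h'
        · obtain ⟨b, hb, hib⟩ := Finset.mem_biUnion.1 h
          exact Finset.mem_biUnion.2 ⟨b, hb, Finset.mem_sdiff.2 ⟨hib, h'⟩⟩
      calc ((T ∪ s.biUnion U) \ T).card ≤ (s.biUnion fun b => U b \ T).card :=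
            Finset.card_le_card h2
        _ ≤ ∑ b ∈ s, (U b \ T).card := Finset.card_biUnion_le
        _ ≤ ∑ _b ∈ s, K₁ := Finset.sum_le_sum fun b hb => hU2 b hb
        _ = s.card * K₁ := by rw [Finset.sum_const, smul_eq_mul]
        _ ≤ G * K₁ := Nat.mul_le_mul_right _ hs
    · intro b hb
      refine (hU3 b hb).mono le_rfl ?_
      intro i hi
      exact Finset.mem_union_right _ (Finset.mem_biUnion.2 ⟨b, hb, hi⟩)
  -- the greedy choice
  obtain ⟨s, hs1, hs2, hs3⟩ := greedy C₀ Q Q' (con_le X Q) le_sup_left bad G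
    (by
      calc Nat.card Q' ≤ Nat.card Q * l ^ w := hcardQ'
        _ < Nat.card Q * 2 ^ G := Nat.mul_lt_mul_of_pos_left hG Nat.card_pos
        _ = _ := mul_comm _ _)
    (by
      intro s hs hbs
      obtain ⟨T₁, hT1, hT2, hT3⟩ := hcommon s hs hbs
      rintro A ⟨hA, hAQ⟩
      have hA : A ∈ C₀ ⊔ AddSubgroup.closure (s : Set (ι → ι → ZMod l)) := hA
      rw [AddSubgroup.mem_sup] at hA
      obtain ⟨c, hc, A', hA', rfl⟩ := hA
      have hstr : Str (qv A') Γ T₁ (r₁ ^ G) :=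
        (str_closure s hT3 A' hA').mono_r (Nat.pow_le_pow_right hr hs)
      have hA'Q : A' ∈ Q := by
        have := Q.sub_mem hAQ (con_le X Q hc)
        simpa using this
      exact C₀.add_mem hc (hgood A' hA'Q T₁ hT1 hT2 hstr))
  obtain ⟨T₁, hT1, hT2, hT3⟩ := hcommon s hs1 hs2
  set H := C₀ ⊔ AddSubgroup.closure (s : Set (ι → ι → ZMod l)) with hH
  have hx₀' := mem_nd.1 hx₀
  have hHQ' : H ≤ Q' := by
    refine sup_le ((con_le X Q).trans le_sup_left) ?_
    rw [AddSubgroup.closure_le]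
    intro b hb
    exact (hs2 b hb).1
  -- counts
  have h1 := count_le X qvHom hHQ' x₀ δ hδ0 (by
    intro A hA hAH
    have := hs3 A hA hAH
    exact not_lt.1 this)
  have h2 := count_le X qvHom (con_le X Q) x₀ δ hδ0 (by
    intro A hA hAC
    by_contra hlt
    push Not at hlt
    obtain ⟨T', hT', hcard, hstr⟩ := hB A (hQ A hA) hlt
    apply hAC
    have hG1 : 1 ≤ G := by
      by_contra h
      have hG0 : G = 0 := by omega
      rw [hG0, pow_zero] at hG
      have : 1 ≤ l ^ w := Nat.one_le_pow _ _ (Nat.pos_of_ne_zero (NeZero.ne l))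
      omega
    exact hgood A hA T' hT' (hcard.trans (Nat.le_mul_of_pos_left _ hG1))
      (hstr.mono_r (Nat.le_self_pow (by omega) _)))
  have hsameC : same X qvHom C₀ x₀ = X := by
    ext x
    rw [mem_same]
    exact ⟨fun h => h.1, fun h => ⟨h, fun A hA => hA.2 x h x₀ hx₀'.1⟩⟩
  have hsameQ : same X qvHom Q x₀ = nd Γ T Q y := by
    ext x
    rw [mem_same, mem_nd]
    constructor
    · rintro ⟨h, h'⟩
      exact ⟨h, fun A hA => (h' A hA).trans (hx₀'.2 A hA)⟩
    · rintro ⟨h, h'⟩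
      exact ⟨h, fun A hA => (h' A hA).trans (hx₀'.2 A hA).symm⟩
  have hsameQ' : same X qvHom Q' x₀ =
      (nd Γ T Q y).filter fun x => ∀ j, qv (p j) x = qv (p j) x₀ := by
    ext x
    rw [mem_same, Finset.mem_filter, mem_nd]
    constructor
    · rintro ⟨h, h'⟩
      refine ⟨⟨h, fun A hA => (h' A ((le_sup_left : Q ≤ Q') hA)).trans (hx₀'.2 A hA)⟩, ?_⟩
      intro j
      exact h' (p j) ((le_sup_right : AddSubgroup.closure (Set.range p) ≤ Q')
        (AddSubgroup.subset_closure ⟨j, rfl⟩))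
    · rintro ⟨⟨h, h'⟩, h''⟩
      refine ⟨h, ?_⟩
      refine eq_on_sup (fun A hA => (h' A hA).trans (hx₀'.2 A hA).symm) (eq_on_closure ?_)
      rintro _ ⟨j, rfl⟩
      exact h'' j
  have hNH : η * X.card ≤ (same X qvHom H x₀).card := by
    refine (hD T₁ s hT1 hT2 hs1 (fun A hA => ⟨hsymQ' A (hs2 A hA).1, hT3 A hA⟩) x₀
      hx₀'.1).trans ?_
    have : same X qvHom (AddSubgroup.closure (s : Set (ι → ι → ZMod l))) x₀ ⊆
        same X qvHom H x₀ := by
      intro x hx
      rw [mem_same] at hx ⊢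
      refine ⟨hx.1, ?_⟩
      exact eq_on_sup (fun A hA => hA.2 x hx.1 x₀ hx₀'.1) (fun A hA => hx.2 A hA)
    exact_mod_cast Finset.card_le_card this
  rw [hsameC, hsameQ] at h2
  rw [hsameQ'] at h1
  have c1 : (0 : ℝ) < Nat.card Q := by exact_mod_cast (Nat.card_pos (α := Q))
  have c2 : (1 : ℝ) ≤ Nat.card C₀ := by exact_mod_cast (Nat.card_pos (α := C₀))
  have c3 : (Nat.card Q' : ℝ) ≤ Nat.card Q * (l ^ w : ℝ) := by exact_mod_cast hcardQ'
  have c4 : (0 : ℝ) < Nat.card Q' := by exact_mod_cast (Nat.card_pos (α := Q'))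
  have c5 : (Nat.card C₀ : ℝ) ≤ Nat.card H := by
    have : C₀ ≤ H := le_sup_left
    exact_mod_cast (Nat.card_le_card_of_injective (AddSubgroup.inclusion this)
      (AddSubgroup.inclusion_injective this))
  have c7 : (0 : ℝ) ≤ X.card := Nat.cast_nonneg _
  generalize (((nd Γ T Q y).filter fun x => ∀ j, qv (p j) x = qv (p j) x₀).card : ℝ) = N'
    at h1 ⊢
  generalize ((nd Γ T Q y).card : ℝ) = N at h2 ⊢
  generalize ((same X qvHom H x₀).card : ℝ) = NH at h1 hNH
  generalize (Nat.card Q' : ℝ) = q' at h1 c3 c4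
  generalize (Nat.card H : ℝ) = h at h1 c5
  generalize (Nat.card C₀ : ℝ) = c at h2 c2 c5
  generalize (Nat.card Q : ℝ) = q at h2 c1 c3 hδ
  generalize (X.card : ℝ) = x at h1 h2 hNH c7
  exact step_arith c1 c2 hl1 c3 c4 c5 hη0 hη1 c7 hδ hNH h1 h2

end Pool.Agent.QS
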