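import Pool.Agent.QS.Clean

/-!
# Decision trees with abstract nodes
-/

set_option autoImplicit false

namespace Pool.Agent.QS

open Finset Pool.Agent.Helper21.LinSys

variable {α : Type*}

/-- The leaves on which the set `T` has density at least `δ` and all conditions are decided. -/
def LeafA (Node : ℕ → Finset α → Prop) [DecidableEq α] (δ : ℝ) (T : Finset α) (j : ℕ)
    (X : Finset α) (Ps : List (α → Prop)) (x : α) : Prop :=
  ∃ (j' : ℕ) (N : Finset α), j' ≤ j ∧ Node j' N ∧ N ⊆ X ∧ x ∈ N ∧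
    (∀ P ∈ Ps, ∀ x' ∈ N, (P x' ↔ P x)) ∧ δ * N.card ≤ (T ∩ N).card

theorem LeafA.mono {Node : ℕ → Finset α → Prop} [DecidableEq α] {δ : ℝ} {T : Finset α}
    {j j₂ : ℕ} {X Y : Finset α} {Ps : List (α → Prop)} {x : α} (h : LeafA Node δ T j X Ps x)
    (hj : j ≤ j₂) (hXY : X ⊆ Y) : LeafA Node δ T j₂ Y Ps x := by
  obtain ⟨j', N, h1, h2, h3, h4⟩ := h
  exact ⟨j', N, h1.trans hj, h2, h3.trans hXY, h4⟩

theorem LeafA.cons {Node : ℕ → Finset α → Prop} [DecidableEq α] {δ : ℝ} {T : Finset α}
    {j : ℕ} {X : Finset α} {Ps : List (α → Prop)} {x : α} (h : LeafA Node δ T j X Ps x)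
    (P : α → Prop) (hx : x ∈ X) (hP : ∀ x' ∈ X, ∀ x'' ∈ X, (P x' ↔ P x'')) :
    LeafA Node δ T j X (P :: Ps) x := by
  obtain ⟨j', N, h1, h2, h3, h4, h5, h6⟩ := h
  refine ⟨j', N, h1, h2, h3, h4, ?_, h6⟩
  intro P' hP' x' hx'
  rcases List.mem_cons.1 hP' with rfl | h
  · exact hP x' (h3 hx') x hx
  · exact h5 P' h x' hx'

theorem tree [DecidableEq α] (Node : ℕ → Finset α → Prop) (Pc : (α → Prop) → Prop) (θ : ℝ)
    (hθ : 0 ≤ θ) (J : ℕ)
    (hstep : ∀ (j : ℕ) (N : Finset α), Node j N → j < J → ∀ P, Pc P → ∀ x₀ ∈ N, ¬ P x₀ →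
      ∃ W ⊆ N, (∀ x ∈ W, ¬ P x) ∧ ((N \ W).card : ℝ) ≤ θ * N.card ∧
        ∃ cl : α → Finset α, Part N cl ∧ (∀ x ∈ N, Node (j + 1) (cl x)) ∧ ∀ x ∈ W, cl x ⊆ W)
    (q : ℕ) (δ : ℝ) (hδ : 0 ≤ δ) (T : Finset α) (Ps : List (α → Prop)) (hPs : ∀ P ∈ Ps, Pc P) :
    ∀ (j : ℕ) (X : Finset α), Node j X → j + q * Ps.length ≤ J →
      ∃ E : Finset α, (E.card : ℝ) ≤ (δ + Ps.length * θ ^ q) * X.card ∧
        ∀ x ∈ X, x ∉ E → x ∈ T → LeafA Node δ T (j + q * Ps.length) X Ps x := by
  classical
  induction Ps with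
  | nil =>
    intro j X hnd _
    by_cases h : δ * X.card ≤ (T ∩ X).card
    · refine ⟨∅, by
        simp only [Finset.card_empty, Nat.cast_zero, List.length_nil, zero_mul, add_zero]
        positivity, fun x hx _ _ => ⟨j, X, by simp, hnd, Finset.Subset.refl _, hx, by simp, h⟩⟩
    · push Not at h
      refine ⟨T ∩ X, by simpa using h.le, fun x hx hxE hxT => absurd ?_ hxE⟩
      exact Finset.mem_inter.2 ⟨hxT, hx⟩
  | cons P Ps ih =>
    have ih' := ih fun P' hP' => hPs P' (List.mem_cons_of_mem _ hP')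
    have hPc := hPs P List.mem_cons_self
    have inner : ∀ (qc j : ℕ) (X : Finset α),
        Node j X → j + qc + q * Ps.length ≤ J →
        ∃ E : Finset α, (E.card : ℝ) ≤ ((δ + Ps.length * θ ^ q) + θ ^ qc) * X.card ∧
          ∀ x ∈ X, x ∉ E → x ∈ T →
            LeafA Node δ T (j + qc + q * Ps.length) X (P :: Ps) x := by
      intro qc
      induction qc with
      | zero =>
        intro j X _ _
        refine ⟨X, ?_, fun x hx hxE => absurd hx hxE⟩
        have h1 : (0 : ℝ) ≤ Ps.length * θ ^ q :=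
          mul_nonneg (Nat.cast_nonneg _) (pow_nonneg hθ _)
        have h2 : (0 : ℝ) ≤ X.card := Nat.cast_nonneg _
        rw [pow_zero]
        nlinarith [mul_nonneg hδ h2, mul_nonneg h1 h2]
      | succ qc ihq =>
        intro j X hnd hJ
        by_cases hall : ∀ x ∈ X, P x
        · -- `P` holds on the node
          obtain ⟨E, hE, hleaf⟩ := ih' j X hnd (by omega)
          refine ⟨E, hE.trans ?_, ?_⟩
          · refine mul_le_mul_of_nonneg_right ?_ (Nat.cast_nonneg _)
            have := pow_nonneg hθ (qc + 1)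
            linarith
          · intro x hx hxE hxT
            refine ((hleaf x hx hxE hxT).cons P hx ?_).mono (by omega) (Finset.Subset.refl _)
            intro x' hx' x'' hx''
            exact ⟨fun _ => hall x'' hx'', fun _ => hall x' hx'⟩
        · push Not at hall
          obtain ⟨x₀, hx₀, hPx₀⟩ := hall
          obtain ⟨W, hWX, hWP, hth, cl, hcl, hclN, hclW⟩ :=
            hstep j X hnd (by omega) P hPc x₀ hx₀ hPx₀
          obtain ⟨E, hE, hQ⟩ := assemble X W cl hcl.self hcl.sub hcl.eq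
            (fun x _ hxW => hclW x hxW)
            (δ + Ps.length * θ ^ q) (δ + Ps.length * θ ^ q + θ ^ qc)
            (by have := pow_nonneg hθ qc; linarith)
            (fun x => x ∈ T → LeafA Node δ T (j + (qc + 1) + q * Ps.length) X (P :: Ps) x) (by
              intro x hx
              by_cases hxW : x ∈ W
              · rw [if_pos hxW]
                obtain ⟨E, hE, hleaf⟩ := ih' (j + 1) (cl x) (hclN x hx) (by omega)
                refine ⟨E, hE, fun x' hx' hx'E hx'T => ?_⟩
                refine ((hleaf x' hx' hx'E hx'T).cons P hx' ?_).mono (by omega) (hcl.sub x hx)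
                have hfalse : ∀ u ∈ cl x, ¬ P u := fun u hu => hWP u (hclW x hxW hu)
                intro u hu v hv
                exact ⟨fun h => absurd h (hfalse u hu), fun h => absurd h (hfalse v hv)⟩
              · rw [if_neg hxW]
                obtain ⟨E, hE, hleaf⟩ := ihq (j + 1) (cl x) (hclN x hx) (by omega)
                refine ⟨E, hE, fun x' hx' hx'E hx'T => ?_⟩
                exact (hleaf x' hx' hx'E hx'T).mono (by omega) (hcl.sub x hx))
          refine ⟨E, hE.trans ?_, fun x hx hxE hxT => hQ x hx hxE hxT⟩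
          have h6 : (0 : ℝ) ≤ θ ^ qc := pow_nonneg hθ _
          calc (δ + Ps.length * θ ^ q : ℝ) * X.card +
                (δ + Ps.length * θ ^ q + θ ^ qc - (δ + Ps.length * θ ^ q)) * (X \ W).card
              = (δ + Ps.length * θ ^ q : ℝ) * X.card + θ ^ qc * (X \ W).card := by ring
            _ ≤ (δ + Ps.length * θ ^ q : ℝ) * X.card + θ ^ qc * (θ * X.card) := by
                have := mul_le_mul_of_nonneg_left hth h6
                linarith
            _ = _ := by rw [pow_succ]; ring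
    intro j X hnd hJ
    have hlen : q * (P :: Ps).length = q + q * Ps.length := by
      rw [List.length_cons]; ring
    obtain ⟨E, hE, hleaf⟩ := inner q j X hnd (by omega)
    refine ⟨E, hE.trans (le_of_eq ?_), fun x hx hxE hxT => (hleaf x hx hxE hxT).mono (by omega)
      (Finset.Subset.refl _)⟩
    rw [List.length_cons]
    push_cast
    ring

end Pool.Agent.QS
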